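import Pool.Agent.Helper90_Q2N.Stmts

/-!
# Half a round: density at the first end becomes density at the second end
-/

set_option autoImplicit false

open Module

namespace Pool.Agent.Q2N.H92

open Pool.Agent.Q2N.H90

/-! ## 1. Real numbers -/

theorem exists_theta (A B D : ℝ) (hA : 0 < A) (b : ℕ) :
    ∃ θ : ℕ, b ≤ θ ∧ 0 < A * (θ : ℝ) ^ 2 + B * θ + D := by
  obtain ⟨n, hn⟩ := exists_nat_gt ((|B| + |D| + 1) / A)
  refine ⟨max (max n b) 1, le_max_of_le_left (le_max_right _ _), ?_⟩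
  set θ : ℕ := max (max n b) 1 with hθ
  have h1 : (1 : ℝ) ≤ θ := by exact_mod_cast le_max_right (max n b) 1
  have h2 : (n : ℝ) ≤ θ := by exact_mod_cast le_max_of_le_left (le_max_left n b)
  have h3 : |B| + |D| + 1 < A * θ := by
    have := (div_lt_iff₀ hA).1 (lt_of_lt_of_le hn h2)
    linarith
  have h4 : -(|B|) ≤ B := neg_abs_le B
  have h5 : -(|D|) ≤ D := neg_abs_le D
  have h6 : (|B| + |D| + 1) * θ ≤ A * θ * θ := by
    apply mul_le_mul_of_nonneg_right h3.le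
    linarith
  have h7 : -(|B|) * θ ≤ B * θ := mul_le_mul_of_nonneg_right h4 (by linarith)
  have h8 : |D| ≤ |D| * θ := le_mul_of_one_le_right (abs_nonneg D) h1
  nlinarith

theorem sum_id (M : ℕ) : ∑ j ∈ Finset.range (M + 1), (j : ℝ) = (M : ℝ) * (M + 1) / 2 := by
  induction M with
  | zero => simp
  | succ M ih =>
    rw [Finset.sum_range_succ, ih]
    push_cast
    ring

theorem sq_half {D : ℝ} (h : 0 ≤ D) : D ^ 2 / 2 ≤ D * (D + 1) / 2 := by
  nlinarith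

/-- the choice of `θ` -/
theorem theta (e q C6 C7 C8 η κ : ℝ) (he' : 1 ≤ e) (hq' : 1 ≤ q) (hη0 : 0 < η)
    (hκ0 : 0 ≤ κ) (hκq : κ * q ^ 2 = (1 - η) * e ^ 2) (b : ℕ) :
    ∃ θ : ℕ, b ≤ θ ∧ 1 + κ * (η / 4 * ((θ + C7) * (q * θ + C6 + 1)) +
      (q * θ + C6) * (q * θ + C6 + 1) / 2) < (e * θ - C8) ^ 2 / 2 := by
  have hA : 0 < e ^ 2 / 2 - κ * (η * q / 4 + q ^ 2 / 2) := by
    have h1 : κ * q ≤ κ * q ^ 2 := by
      apply mul_le_mul_of_nonneg_left _ hκ0
      nlinarith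
    have h2 : κ * (η * q / 4 + q ^ 2 / 2) ≤ (1 - η) * e ^ 2 * (η / 4 + 1 / 2) := by
      calc κ * (η * q / 4 + q ^ 2 / 2) = η / 4 * (κ * q) + κ * q ^ 2 / 2 := by ring
        _ ≤ η / 4 * (κ * q ^ 2) + κ * q ^ 2 / 2 := by
            have := mul_le_mul_of_nonneg_left h1 (by positivity : 0 ≤ η / 4)
            linarith
        _ = (1 - η) * e ^ 2 * (η / 4 + 1 / 2) := by rw [hκq]; ring
    have h3 : 0 < e ^ 2 * (η / 4 + η ^ 2 / 4) := by positivity
    nlinarith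
  obtain ⟨θ, hθ1, hθ⟩ := exists_theta _
    (-(e * C8) - κ * (η / 4 * (C6 + 1 + q * C7) + (2 * q * C6 + q) / 2))
    (C8 ^ 2 / 2 - 1 - κ * (η / 4 * (C7 * (C6 + 1)) + C6 * (C6 + 1) / 2)) hA b
  refine ⟨θ, hθ1, ?_⟩
  have h1 : (e * θ - C8) ^ 2 / 2 - (1 + κ * (η / 4 * ((θ + C7) * (q * θ + C6 + 1)) +
      (q * θ + C6) * (q * θ + C6 + 1) / 2)) =
      (e ^ 2 / 2 - κ * (η * q / 4 + q ^ 2 / 2)) * (θ : ℝ) ^ 2 +
        (-(e * C8) - κ * (η / 4 * (C6 + 1 + q * C7) + (2 * q * C6 + q) / 2)) * θ +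
        (C8 ^ 2 / 2 - 1 - κ * (η / 4 * (C7 * (C6 + 1)) + C6 * (C6 + 1) / 2)) := by
    ring
  linarith

/-- the final comparison; `s = q θ + C6`, `g = e θ - C8`, `k = θ + C7`. -/
theorem compare {ρ κ η z s g k m D Z : ℝ} (hρ : 0 < ρ) (hκ0 : 0 ≤ κ) (hη0 : 0 < η)
    (hz' : 1 ≤ z) (hs : 0 ≤ s) (hk : 0 ≤ k) (hg : 0 ≤ g)
    (hθ' : 1 + κ * (η / 4 * (k * (s + 1)) + s * (s + 1) / 2) < g ^ 2 / 2)
    (hZ1 : s + 2 ≤ ρ * z) (hmr : m = s * z) (hZr : Z = k * z) (hDz : g * z ≤ D)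
    (h1 : ρ * (D ^ 2 / 2) ≤
      (m + 1) + κ * ρ * (m * (m + 1) / 2 + (m + 1) * (η / 4 * Z))) : False := by
  have hm1 : m + 1 ≤ (s + 1) * z := by
    rw [hmr]
    linarith
  have hm0 : 0 ≤ m := by
    rw [hmr]
    positivity
  have h2 : m + 1 ≤ ρ * z ^ 2 := by
    have h4 : (s + 2) * z ≤ ρ * z * z := mul_le_mul_of_nonneg_right hZ1 (by linarith)
    have h5 : ρ * z * z = ρ * z ^ 2 := by ring
    have h6 : (s + 1) * z ≤ (s + 2) * z := mul_le_mul_of_nonneg_right (by linarith) (by linarith)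
    linarith
  have h3 : m * (m + 1) / 2 ≤ s * (s + 1) / 2 * z ^ 2 := by
    have h4 : m * (m + 1) ≤ (s * z) * ((s + 1) * z) := by
      rw [← hmr]
      exact mul_le_mul_of_nonneg_left hm1 hm0
    have h5 : (s * z) * ((s + 1) * z) = s * (s + 1) * z ^ 2 := by ring
    linarith
  have h4 : (m + 1) * (η / 4 * Z) ≤ η / 4 * (k * (s + 1)) * z ^ 2 := by
    rw [hZr]
    have h5 : (m + 1) * (η / 4 * (k * z)) ≤ ((s + 1) * z) * (η / 4 * (k * z)) :=
      mul_le_mul_of_nonneg_right hm1 (by positivity)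
    have h6 : ((s + 1) * z) * (η / 4 * (k * z)) = η / 4 * (k * (s + 1)) * z ^ 2 := by ring
    linarith
  have h5 : κ * ρ * (m * (m + 1) / 2 + (m + 1) * (η / 4 * Z)) ≤
      κ * ρ * (s * (s + 1) / 2 * z ^ 2 + η / 4 * (k * (s + 1)) * z ^ 2) :=
    mul_le_mul_of_nonneg_left (add_le_add h3 h4) (mul_nonneg hκ0 hρ.le)
  have h6 : (g * z) ^ 2 ≤ D ^ 2 := pow_le_pow_left₀ (mul_nonneg hg (by linarith)) hDz 2
  have hz2 : 0 < z := by linarith
  have h7 : ρ * z ^ 2 * (1 + κ * (η / 4 * (k * (s + 1)) + s * (s + 1) / 2)) <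
      ρ * z ^ 2 * (g ^ 2 / 2) := mul_lt_mul_of_pos_left hθ' (by positivity)
  have h8 : ρ * ((g * z) ^ 2 / 2) ≤ ρ * (D ^ 2 / 2) :=
    mul_le_mul_of_nonneg_left (by linarith) hρ.le
  have h9 : ρ * ((g * z) ^ 2 / 2) = ρ * z ^ 2 * (g ^ 2 / 2) := by ring
  have h10 : ρ * z ^ 2 * (1 + κ * (η / 4 * (k * (s + 1)) + s * (s + 1) / 2)) = ρ * z ^ 2 +
      κ * ρ * (s * (s + 1) / 2 * z ^ 2 + η / 4 * (k * (s + 1)) * z ^ 2) := by ring
  linarith

/-! ## 2. Levels -/

section lev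

variable {F K X A : Type} [Field F] [Field K] [Algebra F K] [Ring A] [Algebra F A]
variable {Q : Poles F K X}

theorem fd_mul (U W : Submodule F A) [FiniteDimensional F U] [FiniteDimensional F W] :
    FiniteDimensional F (U * W : Submodule F A) :=
  (Submodule.fg_iff_finiteDimensional _).1 (Submodule.FG.mul
    ((Submodule.fg_iff_finiteDimensional _).2 inferInstance)
    ((Submodule.fg_iff_finiteDimensional _).2 inferInstance))

theorem fd_pow (U : Submodule F A) [FiniteDimensional F U] (n : ℕ) :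
    FiniteDimensional F (U ^ n : Submodule F A) :=
  (Submodule.fg_iff_finiteDimensional _).1 (Submodule.FG.pow
    ((Submodule.fg_iff_finiteDimensional _).2 inferInstance) n)

theorem L_eq_bot (E : End1 Q A) {W : Submodule F A} {n d : ℕ} (h : W ≤ E.Fil d) (hn : d < n) :
    E.L n W = ⊥ := by
  rw [Submodule.eq_bot_iff]
  intro f hf
  obtain ⟨x, ⟨hx, _⟩, rfl⟩ := E.mem_L.mp hf
  exact h hx n hn

theorem mul_lev (E : End1 Q A) (W : Submodule F A) [FiniteDimensional F W] {x : A} {d t : ℕ}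
    (hx : E.Lev x d) (hW : E.L t W ≠ ⊥) :
    finrank F (E.L t W) ≤ finrank F (E.L (t + d) (W * Submodule.span F {x})) := by
  have h1 := E.L_mul_le t d W (Submodule.span F {x})
  have hfx : FiniteDimensional F (Submodule.span F {x}) := by infer_instance
  have hfm : FiniteDimensional F (W * Submodule.span F {x} : Submodule F A) := fd_mul _ _
  have h2 : E.L d (Submodule.span F {x}) ≠ ⊥ := by
    intro h0
    have h3 : E.c d x ∈ E.L d (Submodule.span F {x}) :=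
      E.mem_L.mpr ⟨x, ⟨Submodule.mem_span_singleton_self x, hx.1⟩, rfl⟩
    rw [h0, Submodule.mem_bot] at h3
    exact hx.2 h3
  have h4 : E.ph t (E.L d (Submodule.span F {x})) ≠ ⊥ := E.ph_ne_bot h2
  have hfd : FiniteDimensional F (E.ph t (E.L d (Submodule.span F {x}))) := by
    unfold End1.ph
    infer_instance
  have h5 := Q.dim_mul (E.L t W) (E.ph t (E.L d (Submodule.span F {x}))) inferInstance hfd hW h4
  have h6 : 1 ≤ finrank F (E.ph t (E.L d (Submodule.span F {x}))) := by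
    rw [Nat.one_le_iff_ne_zero]
    intro h0
    exact h4 (Submodule.finrank_eq_zero.mp h0)
  have h7 := Submodule.finrank_mono h1
  omega

theorem pow_mono' {V : Submodule F A} (h1 : (1 : A) ∈ V) {a b : ℕ} (h : a ≤ b) :
    V ^ a ≤ V ^ b := by
  obtain ⟨c, rfl⟩ := Nat.exists_eq_add_of_le h
  rw [pow_add]
  intro x hx
  have h2 : (1 : A) ∈ V ^ c := by
    have := Submodule.pow_mem_pow V h1 c
    rwa [one_pow] at this
  have := Submodule.mul_mem_mul hx h2
  rwa [mul_one] at this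

/-- the lower bound for the level `t` -/
theorem low (E E' : End1 Q A) {V : Submodule F A} {p : A} {e q : ℕ} (hS : Sea E E' V p e q)
    {P R C J : ℕ}
    (hloc : ∀ N z n w s : ℕ, 1 ≤ N → e ∣ N → 1 ≤ z → 1 ≤ n → 2 ≤ finrank F (E.L n (V ^ z)) →
      N * n + 2 * C * z + J < e * w →
      ∀ r, r < e → ∃ l, l ≤ P ∧ l % e = r ∧
        ∀ m Z, q * s + (N * R + R + q * N * P) * z ≤ m → s + (N + N * P + 1) * z ≤ Z →
          1 + (s / w + 1) * (N * (finrank F (E.L n (V ^ z)) - 1)) ≤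
            finrank F (E.L (e * s + N * n + l) (V ^ Z ⊓ E'.Fil m)))
    {N : ℕ} (hN1 : 1 ≤ N) (heN : e ∣ N) {η : ℝ} (hη : 0 < η)
    (hN : (2 * C + J + e : ℝ) ≤ N * (η / 4)) {z n : ℕ} (hz : 1 ≤ z) (hn : 1 ≤ n) {ρ : ℝ}
    (hρ : 0 < ρ) (hf : 1 + ρ * (n + η / 4 * z) ≤ (finrank F (E.L n (V ^ z)) : ℝ)) {t θ : ℕ}
    (ht : N * n + P + e ≤ t) (htT : t ≤ e * θ * z) {Z m : ℕ}
    (hZ : (θ + (N + N * P + 1 + (P + 1))) * z ≤ Z)
    (hm : (q * θ + (N * R + R + q * N * P + q * (P + 1))) * z ≤ m) :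
    ρ * ((t : ℝ) - ((N * n + P + e : ℕ) : ℝ)) ≤ (finrank F (E.L t (V ^ Z ⊓ E'.Fil m)) : ℝ) := by
  have hfd := hS.fd
  have hfdZ := fd_pow V Z
  have he : 0 < e := hS.e1
  have hz' : (1 : ℝ) ≤ z := by exact_mod_cast hz
  have hn' : (1 : ℝ) ≤ n := by exact_mod_cast hn
  have hf2 : 2 ≤ finrank F (E.L n (V ^ z)) := by
    have h1 : 0 < ρ * (n + η / 4 * z) := by positivity
    have h2 : (1 : ℝ) < (finrank F (E.L n (V ^ z)) : ℝ) := by linarith
    exact_mod_cast h2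
  set f := finrank F (E.L n (V ^ z)) with hfdef
  set w := (N * n + 2 * C * z + J) / e + 1 with hw
  set s := (t - N * n - P) / e with hs
  have hw1 : N * n + 2 * C * z + J < e * w := by
    have := Nat.lt_mul_div_succ (N * n + 2 * C * z + J) he
    exact this
  have hw2 : e * w ≤ N * n + 2 * C * z + J + e := by
    have := Nat.mul_div_le (N * n + 2 * C * z + J) e
    rw [hw, mul_add]
    omega
  obtain ⟨l, hlP, hlr, hl⟩ := hloc N z n w s hN1 heN hz hn hf2 hw1 (t % e) (Nat.mod_lt _ he)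
  have hs1 : e * s ≤ t - N * n - P := Nat.mul_div_le _ _
  have hs2 : t - N * n - P < e * s + e := by
    have := Nat.lt_mul_div_succ (t - N * n - P) he
    rw [mul_add, mul_one] at this
    exact this
  -- the number of steps
  have hle : e * s + N * n + l ≤ t := by omega
  have hmod : e ∣ t - (e * s + N * n + l) := by
    rw [← Nat.modEq_iff_dvd' hle]
    unfold Nat.ModEq
    obtain ⟨N0, rfl⟩ := heN
    rw [show e * s + e * N0 * n + l = l + e * (s + N0 * n) by ring, Nat.add_mul_mod_self_left]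
    exact hlr
  obtain ⟨i, hi⟩ := hmod
  have hti : t = e * s + N * n + l + i * e := by
    rw [mul_comm i e]
    omega
  have hiP : i ≤ P := by
    by_contra hcon
    have h1 : P + 1 ≤ i := by omega
    have h2 : (P + 1) * e ≤ i * e := Nat.mul_le_mul_right e h1
    have h3 : P * 1 ≤ P * e := Nat.mul_le_mul_left P hS.e1
    rw [add_mul, one_mul] at h2
    omega
  have hsθ : s ≤ θ * z := by
    have h1 : e * s ≤ e * (θ * z) := by
      calc e * s ≤ t := by omega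
        _ ≤ e * (θ * z) := by rw [← mul_assoc]; exact htT
    exact Nat.le_of_mul_le_mul_left h1 he
  -- the space of words
  set Z0 := s + (N + N * P + 1) * z with hZ0
  set m0 := q * s + (N * R + R + q * N * P) * z with hm0
  have h1 := hl m0 Z0 le_rfl le_rfl
  have hfd0 := fd_pow V Z0
  have hfdW : FiniteDimensional F (V ^ Z0 ⊓ E'.Fil m0 : Submodule F A) :=
    Submodule.finiteDimensional_of_le (inf_le_left : V ^ Z0 ⊓ E'.Fil m0 ≤ V ^ Z0)
  have hfdU : FiniteDimensional F (V ^ Z ⊓ E'.Fil m : Submodule F A) :=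
    Submodule.finiteDimensional_of_le (inf_le_left : V ^ Z ⊓ E'.Fil m ≤ V ^ Z)
  have hne : E.L (e * s + N * n + l) (V ^ Z0 ⊓ E'.Fil m0) ≠ ⊥ := by
    intro h0
    rw [h0, finrank_bot] at h1
    omega
  have h2 := mul_lev E (V ^ Z0 ⊓ E'.Fil m0) (End1.Lev.pow E hS.lev i) hne
  rw [← hti] at h2
  have hZ1 : Z0 + i ≤ Z := by
    have h3 : i ≤ (P + 1) * z := by
      calc i ≤ (P + 1) * 1 := by omega
        _ ≤ (P + 1) * z := Nat.mul_le_mul_left _ hz
    calc Z0 + i = s + (N + N * P + 1) * z + i := rfl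
      _ ≤ θ * z + (N + N * P + 1) * z + (P + 1) * z :=
          Nat.add_le_add (Nat.add_le_add_right hsθ _) h3
      _ = (θ + (N + N * P + 1 + (P + 1))) * z := by ring
      _ ≤ Z := hZ
  have hm1 : m0 + i * q ≤ m := by
    have h3 : i * q ≤ q * (P + 1) * z := by
      calc i * q ≤ (P + 1) * q := Nat.mul_le_mul_right q (by omega)
        _ = q * (P + 1) * 1 := by ring
        _ ≤ q * (P + 1) * z := Nat.mul_le_mul_left _ hz
    calc m0 + i * q = q * s + (N * R + R + q * N * P) * z + i * q := rfl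
      _ ≤ q * (θ * z) + (N * R + R + q * N * P) * z + q * (P + 1) * z :=
          Nat.add_le_add (Nat.add_le_add_right (Nat.mul_le_mul_left q hsθ) _) h3
      _ = (q * θ + (N * R + R + q * N * P + q * (P + 1))) * z := by ring
      _ ≤ m := hm
  have h3 : (V ^ Z0 ⊓ E'.Fil m0) * Submodule.span F {p ^ i} ≤ V ^ Z ⊓ E'.Fil m := by
    refine le_inf ?_ ?_
    · refine le_trans ?_ (pow_mono' hS.one hZ1)
      rw [pow_add V Z0 i]
      have q1 : V ^ Z0 ⊓ E'.Fil m0 ≤ V ^ Z0 := inf_le_left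
      have q2 : Submodule.span F {p ^ i} ≤ V ^ i := by
        rw [Submodule.span_singleton_le_iff_mem]
        exact Submodule.pow_mem_pow V hS.pV i
      exact Submodule.mul_le.2 fun x hx y hy => Submodule.mul_mem_mul (q1 hx) (q2 hy)
    · refine le_trans ?_ (E'.Fil_mono hm1)
      refine E'.Fil_mul_le inf_le_right ?_
      rw [Submodule.span_singleton_le_iff_mem]
      exact E'.pow_mem_Fil hS.fil i
  have h4 := Submodule.finrank_mono (E.L_mono (n := t) h3)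
  have h5 : 1 + (s / w + 1) * (N * (f - 1)) ≤ finrank F (E.L t (V ^ Z ⊓ E'.Fil m)) :=
    h1.trans (h2.trans h4)
  -- the real inequality
  have hwpos : 0 < w := Nat.succ_pos _
  have h6 : s < (s / w + 1) * w := by
    have := Nat.lt_mul_div_succ s hwpos
    rw [mul_comm] at this
    exact this
  have h5r : (1 : ℝ) + ((s / w : ℕ) + 1) * (N * ((f : ℝ) - 1)) ≤
      (finrank F (E.L t (V ^ Z ⊓ E'.Fil m)) : ℝ) := by
    have h7 : ((f - 1 : ℕ) : ℝ) = (f : ℝ) - 1 := by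
      rw [Nat.cast_sub (by omega)]
      simp
    have h8 : ((1 + (s / w + 1) * (N * (f - 1)) : ℕ) : ℝ) ≤
        ((finrank F (E.L t (V ^ Z ⊓ E'.Fil m)) : ℕ) : ℝ) := by exact_mod_cast h5
    push_cast [h7] at h8
    exact h8
  have h6r : (s : ℝ) ≤ ((s / w : ℕ) + 1) * (w : ℝ) := by
    have : (s : ℝ) < (((s / w + 1) * w : ℕ) : ℝ) := by exact_mod_cast h6
    push_cast at this
    exact_mod_cast this.le
  have hw2r : (e : ℝ) * w ≤ N * (n + η / 4 * z) := by
    have h7 : ((e * w : ℕ) : ℝ) ≤ ((N * n + 2 * C * z + J + e : ℕ) : ℝ) := by exact_mod_cast hw2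
    push_cast at h7
    have h8 : (2 * C + J + e : ℝ) * z ≤ N * (η / 4) * z :=
      mul_le_mul_of_nonneg_right hN (by linarith)
    have h9 : (J : ℝ) ≤ J * z := le_mul_of_one_le_right (by positivity) hz'
    have h10 : (e : ℝ) ≤ e * z := le_mul_of_one_le_right (by positivity) hz'
    nlinarith
  have hs2r : (t : ℝ) - ((N * n + P + e : ℕ) : ℝ) ≤ e * s := by
    have h7 : t ≤ e * s + (N * n + P + e) := by omega
    have h8 : (t : ℝ) ≤ ((e * s + (N * n + P + e) : ℕ) : ℝ) := by exact_mod_cast h7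
    push_cast at h8 ⊢
    linarith
  have hk : (0 : ℝ) ≤ ((s / w : ℕ) : ℝ) + 1 := by positivity
  calc ρ * ((t : ℝ) - ((N * n + P + e : ℕ) : ℝ)) ≤ ρ * (e * s) :=
        mul_le_mul_of_nonneg_left hs2r hρ.le
    _ ≤ ρ * (e * (((s / w : ℕ) + 1) * (w : ℝ))) := by
        apply mul_le_mul_of_nonneg_left _ hρ.le
        exact mul_le_mul_of_nonneg_left h6r (by positivity)
    _ = ((s / w : ℕ) + 1) * (ρ * (e * w)) := by ring
    _ ≤ ((s / w : ℕ) + 1) * (ρ * (N * (n + η / 4 * z))) := by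
        apply mul_le_mul_of_nonneg_left _ hk
        exact mul_le_mul_of_nonneg_left hw2r hρ.le
    _ = ((s / w : ℕ) + 1) * (N * (ρ * (n + η / 4 * z))) := by ring
    _ ≤ ((s / w : ℕ) + 1) * (N * ((f : ℝ) - 1)) := by
        apply mul_le_mul_of_nonneg_left _ hk
        exact mul_le_mul_of_nonneg_left (by linarith) (by positivity)
    _ ≤ (finrank F (E.L t (V ^ Z ⊓ E'.Fil m)) : ℝ) := by linarith

/-- the sum of the lower bounds -/
theorem low_sum (E E' : End1 Q A) {V : Submodule F A} {p : A} {e q : ℕ} (hS : Sea E E' V p e q)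
    {P R C J : ℕ}
    (hloc : ∀ N z n w s : ℕ, 1 ≤ N → e ∣ N → 1 ≤ z → 1 ≤ n → 2 ≤ finrank F (E.L n (V ^ z)) →
      N * n + 2 * C * z + J < e * w →
      ∀ r, r < e → ∃ l, l ≤ P ∧ l % e = r ∧
        ∀ m Z, q * s + (N * R + R + q * N * P) * z ≤ m → s + (N + N * P + 1) * z ≤ Z →
          1 + (s / w + 1) * (N * (finrank F (E.L n (V ^ z)) - 1)) ≤
            finrank F (E.L (e * s + N * n + l) (V ^ Z ⊓ E'.Fil m)))
    {N : ℕ} (hN1 : 1 ≤ N) (heN : e ∣ N) {η : ℝ} (hη : 0 < η)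
    (hN : (2 * C + J + e : ℝ) ≤ N * (η / 4)) {z n : ℕ} (hz : 1 ≤ z) (hn : 1 ≤ n) {ρ : ℝ}
    (hρ : 0 < ρ) (hf : 1 + ρ * (n + η / 4 * z) ≤ (finrank F (E.L n (V ^ z)) : ℝ)) {θ D : ℕ}
    (hD : N * n + P + e + D = e * θ * z) {Z m : ℕ}
    (hZ : (θ + (N + N * P + 1 + (P + 1))) * z ≤ Z)
    (hm : (q * θ + (N * R + R + q * N * P + q * (P + 1))) * z ≤ m) :
    ρ * ((D : ℝ) ^ 2 / 2) ≤ (finrank F (V ^ Z ⊓ E'.Fil m : Submodule F A) : ℝ) := by
  have hfd := hS.fd
  have hfdZ := fd_pow V Z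
  have hfdU : FiniteDimensional F (V ^ Z ⊓ E'.Fil m : Submodule F A) :=
    Submodule.finiteDimensional_of_le (inf_le_left : V ^ Z ⊓ E'.Fil m ≤ V ^ Z)
  have h1 := E.sumL_le (V ^ Z ⊓ E'.Fil m) (e * θ * z)
  have hTD : e * θ * z + 1 = (N * n + P + e) + (D + 1) := by omega
  rw [hTD, Finset.sum_range_add] at h1
  have h2 : ∑ j ∈ Finset.range (D + 1),
      finrank F (E.L (N * n + P + e + j) (V ^ Z ⊓ E'.Fil m)) ≤
      finrank F (V ^ Z ⊓ E'.Fil m : Submodule F A) := (Nat.le_add_left _ _).trans h1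
  have h2r : ∑ j ∈ Finset.range (D + 1),
      (finrank F (E.L (N * n + P + e + j) (V ^ Z ⊓ E'.Fil m)) : ℝ) ≤
      (finrank F (V ^ Z ⊓ E'.Fil m : Submodule F A) : ℝ) := by exact_mod_cast h2
  refine le_trans ?_ h2r
  have h3 : ∑ j ∈ Finset.range (D + 1), ρ * (j : ℝ) ≤ ∑ j ∈ Finset.range (D + 1),
      (finrank F (E.L (N * n + P + e + j) (V ^ Z ⊓ E'.Fil m)) : ℝ) := by
    refine Finset.sum_le_sum fun j hj => ?_
    have hj' := Finset.mem_range.1 hj
    have h4 := low E E' hS hloc hN1 heN hη hN hz hn hρ hf (t := N * n + P + e + j) (θ := θ)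
      (Nat.le_add_right _ _) (by omega) hZ hm
    have h5 : ((N * n + P + e + j : ℕ) : ℝ) - ((N * n + P + e : ℕ) : ℝ) = j := by
      rw [Nat.cast_add (N * n + P + e) j]
      ring
    rw [h5] at h4
    exact h4
  rw [← Finset.mul_sum, sum_id] at h3
  exact (mul_le_mul_of_nonneg_left (sq_half (Nat.cast_nonneg _)) hρ.le).trans h3

/-- the upper bound -/
theorem up_sum (E' : End1 Q A) {W : Submodule F A} [FiniteDimensional F W] {m : ℕ} {c g : ℝ}
    (hc : 0 ≤ c) (hg : 0 ≤ g)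
    (h : ∀ n, 1 ≤ n → (finrank F (E'.L n W) : ℝ) < 1 + c * (n + g)) :
    (finrank F (W ⊓ E'.Fil m : Submodule F A) : ℝ) ≤
      (m + 1) + c * ((m : ℝ) * (m + 1) / 2 + (m + 1) * g) := by
  have h1 := E'.sumL W m
  have h2 : (finrank F (W ⊓ E'.Fil m : Submodule F A) : ℝ) =
      ∑ i ∈ Finset.range (m + 1), (finrank F (E'.L i W) : ℝ) := by
    rw [h1]
    push_cast
    rfl
  rw [h2]
  have h3 : ∑ i ∈ Finset.range (m + 1), (finrank F (E'.L i W) : ℝ) ≤
      ∑ i ∈ Finset.range (m + 1), (1 + c * ((i : ℝ) + g)) := by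
    refine Finset.sum_le_sum fun i _ => ?_
    rcases Nat.eq_zero_or_pos i with h0 | h0
    · rw [h0]
      have h4 : (finrank F (E'.L 0 W) : ℝ) ≤ 1 := by exact_mod_cast E'.finrank_L0_le W
      have h5 : 0 ≤ c * (((0 : ℕ) : ℝ) + g) := by
        rw [Nat.cast_zero, zero_add]
        exact mul_nonneg hc hg
      linarith
    · exact (h i h0).le
  rw [Finset.sum_add_distrib, ← Finset.mul_sum, Finset.sum_add_distrib, sum_id,
    Finset.sum_const, Finset.sum_const, Finset.card_range, nsmul_eq_mul, nsmul_eq_mul,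
    mul_one] at h3
  push_cast at h3
  exact h3

end lev

/-! ## 3. The theorem -/

theorem round : RoundStmt := by
  intro F K X A _ _ _ _ _ Q E E' V p e q hS hL η hη0 hη1
  obtain ⟨P, R, C, J, hVP, hVR, hloc⟩ := hL
  have hfd := hS.fd
  have he : 0 < e := hS.e1
  have hq : 0 < q := hS.q1
  have he' : (1 : ℝ) ≤ e := by exact_mod_cast hS.e1
  have hq' : (1 : ℝ) ≤ q := by exact_mod_cast hS.q1
  -- the number `N`
  obtain ⟨N0, hN0⟩ := exists_nat_gt ((2 * C + J + e : ℝ) / (η / 4))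
  have hN0' : (2 * C + J + e : ℝ) < N0 * (η / 4) := (div_lt_iff₀ (by positivity)).1 hN0
  have hN01 : 1 ≤ N0 := by
    rw [Nat.one_le_iff_ne_zero]
    rintro rfl
    have : (0 : ℝ) ≤ 2 * C + J + e := by positivity
    rw [Nat.cast_zero, zero_mul] at hN0'
    linarith
  obtain ⟨N, hNdef⟩ : ∃ N, N = e * N0 := ⟨_, rfl⟩
  have hN1 : 1 ≤ N := hNdef ▸ Nat.mul_pos he hN01
  have heN : e ∣ N := hNdef ▸ dvd_mul_right _ _
  have hN : (2 * C + J + e : ℝ) ≤ N * (η / 4) := by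
    have h1 : (N0 : ℝ) ≤ N := by
      rw [hNdef]
      exact_mod_cast Nat.le_mul_of_pos_left N0 he
    have h2 : (N0 : ℝ) * (η / 4) ≤ N * (η / 4) := mul_le_mul_of_nonneg_right h1 (by positivity)
    linarith
  obtain ⟨C6, hC6⟩ : ∃ C6, C6 = N * R + R + q * N * P + q * (P + 1) := ⟨_, rfl⟩
  obtain ⟨C7, hC7⟩ : ∃ C7, C7 = N + N * P + 1 + (P + 1) := ⟨_, rfl⟩
  obtain ⟨C8, hC8⟩ : ∃ C8, C8 = N * P + P + e := ⟨_, rfl⟩
  obtain ⟨κ, hκ⟩ : ∃ κ : ℝ, κ = (1 - η) * ((e : ℝ) / q) ^ 2 := ⟨_, rfl⟩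
  have hκ0 : 0 ≤ κ := hκ ▸ mul_nonneg (by linarith) (sq_nonneg _)
  have hκq : κ * (q : ℝ) ^ 2 = (1 - η) * (e : ℝ) ^ 2 := by
    rw [hκ]
    field_simp
  obtain ⟨θ, hθ1, hθ'⟩ := theta (e : ℝ) q C6 C7 C8 η κ he' hq' hη0 hκ0 hκq (C8 + 1)
  have hθ2 : (C8 : ℝ) + 1 ≤ e * θ := by
    have h1 : ((C8 + 1 : ℕ) : ℝ) ≤ θ := by exact_mod_cast hθ1
    push_cast at h1
    have h2 : (θ : ℝ) ≤ e * θ := le_mul_of_one_le_left (by positivity) he'
    linarith
  refine ⟨θ + C7, q * θ + C6 + 2, by omega, ?_⟩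
  intro z n ρ hz hn hρ hZ1 hf
  have hz' : (1 : ℝ) ≤ z := by exact_mod_cast hz
  -- `n ≤ P z`
  have hnP : n ≤ P * z := by
    by_contra hcon
    have h1 : V ^ z ≤ E.Fil (z * P) := E.pow_le_Fil hVP z
    rw [L_eq_bot E h1 (by rw [mul_comm]; omega), finrank_bot, Nat.cast_zero] at hf
    have : 0 < ρ * (n + η / 4 * z) := by positivity
    linarith
  have haz : N * n + P + e ≤ C8 * z := by
    have h1 : N * n ≤ N * (P * z) := Nat.mul_le_mul_left N hnP
    have h2 : P * 1 ≤ P * z := Nat.mul_le_mul_left P hz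
    have h3 : e * 1 ≤ e * z := Nat.mul_le_mul_left e hz
    calc N * n + P + e = N * n + P * 1 + e * 1 := by ring
      _ ≤ N * (P * z) + P * z + e * z := by omega
      _ = C8 * z := by rw [hC8]; ring
  have hC8T : (C8 + 1) * z ≤ e * θ * z := by
    apply Nat.mul_le_mul_right
    calc C8 + 1 ≤ 1 * θ := by omega
      _ ≤ e * θ := Nat.mul_le_mul_right θ he
  have haT : N * n + P + e ≤ e * θ * z := by
    calc N * n + P + e ≤ C8 * z := haz
      _ ≤ (C8 + 1) * z := Nat.mul_le_mul_right z (Nat.le_succ _)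
      _ ≤ e * θ * z := hC8T
  obtain ⟨D, hD⟩ := Nat.exists_eq_add_of_le haT
  obtain ⟨m, hm⟩ : ∃ m, m = (q * θ + C6) * z := ⟨_, rfl⟩
  have hlow : ρ * ((D : ℝ) ^ 2 / 2) ≤
      (finrank F (V ^ ((θ + C7) * z) ⊓ E'.Fil m : Submodule F A) : ℝ) :=
    low_sum E E' hS hloc hN1 heN hη0 hN hz hn hρ hf hD.symm (by rw [hC7]) (by rw [hm, hC6])
  have hfdZ := fd_pow V ((θ + C7) * z)
  have hDz : ((e : ℝ) * θ - C8) * z ≤ D := by
    have h1 : ((e * θ * z : ℕ) : ℝ) = ((N * n + P + e : ℕ) : ℝ) + D := by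
      rw [hD]
      push_cast
      ring
    have h2 : ((N * n + P + e : ℕ) : ℝ) ≤ ((C8 * z : ℕ) : ℝ) := by exact_mod_cast haz
    rw [Nat.cast_mul C8 z] at h2
    have h3 : ((e * θ * z : ℕ) : ℝ) = (e : ℝ) * θ * z := by push_cast; ring
    rw [h3] at h1
    linarith
  have hDz1 : (z : ℝ) ≤ D := by
    refine le_trans ?_ hDz
    have : (1 : ℝ) * z ≤ ((e : ℝ) * θ - C8) * z :=
      mul_le_mul_of_nonneg_right (by linarith) (by linarith)
    linarith
  refine ⟨?_, ?_⟩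
  · have hUZ : finrank F (V ^ ((θ + C7) * z) ⊓ E'.Fil m : Submodule F A) ≤
        finrank F (V ^ ((θ + C7) * z) : Submodule F A) := Submodule.finrank_mono inf_le_left
    have h1 : (finrank F (V ^ ((θ + C7) * z) ⊓ E'.Fil m : Submodule F A) : ℝ) ≤
        (finrank F (V ^ ((θ + C7) * z) : Submodule F A) : ℝ) := by exact_mod_cast hUZ
    refine le_trans ?_ (hlow.trans h1)
    have h2 : (z : ℝ) ^ 2 ≤ (D : ℝ) ^ 2 := pow_le_pow_left₀ (by positivity) hDz1 2
    have h3 := mul_le_mul_of_nonneg_left h2 hρ.le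
    linarith
  · -- the upper bound
    by_contra hcon
    push Not at hcon
    rw [← hκ] at hcon
    have hup := up_sum E' (W := V ^ ((θ + C7) * z)) (m := m) (c := κ * ρ)
      (g := η / 4 * (((θ + C7) * z : ℕ) : ℝ)) (mul_nonneg hκ0 hρ.le) (by positivity) hcon
    refine compare (s := q * θ + C6) (g := e * θ - C8) (k := θ + C7) (m := m) (D := D) hρ hκ0 hη0
      hz' (by positivity) (by positivity) (by linarith) hθ' ?_ ?_ ?_ hDz (hlow.trans hup)
    · push_cast at hZ1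
      exact hZ1
    · rw [hm]
      push_cast
      ring
    · push_cast
      ring

end Pool.Agent.Q2N.H92
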